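import Mathlib

set_option autoImplicit false
set_option maxRecDepth 100000

/-!
# A vertex that lies in no locally minimal defensive alliance
-/

namespace Pool.Agent.Results.MP_b7e006_co.EightVertices

variable {V : Type} [Fintype V] [DecidableEq V]

/-- `D` is a defensive alliance of `G`: it is nonempty and every `v ∈ D` has at least as many closed
neighbours in `D` as neighbours outside `D`. -/
def IsAlliance (G : SimpleGraph V) [DecidableRel G.Adj] (D : Finset V) : Prop :=
  D.Nonempty ∧ ∀ v ∈ D, (Finset.univ.filter (fun u => G.Adj v u ∧ u ∉ D)).card ≤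
    (Finset.univ.filter (fun u => (u = v ∨ G.Adj v u) ∧ u ∈ D)).card

/-- `D` is locally minimal: no set `D \ {v}` with `v ∈ D` is a defensive alliance. -/
def IsLocallyMinimal (G : SimpleGraph V) [DecidableRel G.Adj] (D : Finset V) : Prop :=
  IsAlliance G D ∧ ∀ v ∈ D, ¬ IsAlliance G (D.erase v)

instance (G : SimpleGraph V) [DecidableRel G.Adj] (D : Finset V) : Decidable (IsAlliance G D) := by
  unfold IsAlliance; infer_instance

instance (G : SimpleGraph V) [DecidableRel G.Adj] (D : Finset V) :
    Decidable (IsLocallyMinimal G D) := by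
  unfold IsLocallyMinimal; infer_instance

/-- The edges of the graph. -/
def edges : List (Fin 8 × Fin 8) :=
  [(0,2),(0,3),(1,4),(1,5),(1,6),(1,7),(2,4),(2,5),(2,6),(2,7),(3,4),(3,5),(3,6),(3,7),(4,5),
   (4,6),(4,7),(5,6),(5,7),(6,7)]

/-- A graph on 8 vertices. -/
def graph : SimpleGraph (Fin 8) where
  Adj u v := (u, v) ∈ edges ∨ (v, u) ∈ edges
  symm := ⟨fun _ _ h => h.symm⟩
  loopless := ⟨by unfold edges; decide +kernel⟩

instance : DecidableRel graph.Adj := fun u v =>
  inferInstanceAs (Decidable ((u, v) ∈ edges ∨ (v, u) ∈ edges))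

lemma two_le_degree : ∀ v, 2 ≤ graph.degree v := by decide +kernel

lemma no_alliance : ∀ D ∈ (Finset.univ : Finset (Fin 8)).powerset, (0 : Fin 8) ∈ D →
    ¬ IsLocallyMinimal graph D := by decide +kernel

/-- **Q1 fails.** There is a graph on 8 vertices with minimum degree at least 2 and a vertex that
lies in no locally minimal defensive alliance. -/
theorem result :
    (∃ (G : SimpleGraph (Fin 8)) (_ : DecidableRel G.Adj) (v : Fin 8),
      (∀ u, 2 ≤ G.degree u) ∧ ∀ D : Finset (Fin 8), IsLocallyMinimal G D → v ∉ D) ∧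
    ¬ ∀ (V : Type) [Fintype V] [DecidableEq V] (G : SimpleGraph V) [DecidableRel G.Adj],
      (∀ u, 2 ≤ G.degree u) → ∀ v : V, ∃ D : Finset V, IsLocallyMinimal G D ∧ v ∈ D := by
  have h : ∀ D : Finset (Fin 8), IsLocallyMinimal graph D → (0 : Fin 8) ∉ D :=
    fun D hD h0 => no_alliance D (Finset.mem_powerset.mpr (Finset.subset_univ D)) h0 hD
  refine ⟨⟨graph, inferInstance, 0, two_le_degree, h⟩, fun hall => ?_⟩
  obtain ⟨D, hD, h0⟩ := hall (Fin 8) graph two_le_degree 0
  exact h D hD h0

end Pool.Agent.Results.MP_b7e006_co.EightVertices
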